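import Pool.Agent.MSG.Main

/-!
# MP_cc8255_al (Malcev): rigid domains with central residues are determined by their
multiplicative semigroups
-/

set_option autoImplicit false

namespace Pool.Agent.Results.MP_cc8255_al.RigidDomains

universe u v

/-- Let `R` be a ring with 1 and without zero divisors such that (1) `a c = b d`, not zero,
implies that one of `a`, `b` is a right multiple of the other, (2) every nonzero nonunit has an
irreducible left factor, (3) not all irreducible elements generate the same right ideal,
(4) every unit `u` with `u a` in `a R`, `a` irreducible, is congruent to a central element modulo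
`a R`.  Then every associative ring `S`, with or without 1, whose multiplicative semigroup is
isomorphic to the one of `R`, is isomorphic to `R` as a ring. -/
theorem result {R : Type u} {S : Type v} [Ring R] [IsDomain R] [NonUnitalRing S]
    (rigid : ∀ a b c d : R, a * c = b * d → a * c ≠ 0 → (∃ t, a = b * t) ∨ ∃ t, b = a * t)
    (atom : ∀ p : R, p ≠ 0 → ¬ IsUnit p → ∃ a t : R, Irreducible a ∧ p = a * t)
    (two : ∃ a b : R, Irreducible a ∧ Irreducible b ∧ ¬ ∃ t, b = a * t)
    (cres : ∀ a u : R, Irreducible a → IsUnit u → (∃ s, u * a = a * s) →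
      ∃ z r : R, (∀ x, z * x = x * z) ∧ u = z + a * r)
    (φ : R ≃* S) : Nonempty (R ≃+* S) := by
  have h1 : ∀ s : S, φ 1 * s = s := fun s => by
    obtain ⟨r, rfl⟩ := φ.surjective s
    rw [← map_mul, one_mul]
  have h2 : ∀ s : S, s * φ 1 = s := fun s => by
    obtain ⟨r, rfl⟩ := φ.surjective s
    rw [← map_mul, mul_one]
  let _ : Ring S := { (inferInstance : NonUnitalRing S) with
    one := φ 1
    one_mul := h1
    mul_one := h2 }
  have : IsDomain S := MulEquiv.isDomain R φ.symm
  obtain ⟨e⟩ := Pool.Agent.MSG.rigidity (R := R) (S := S) ⟨rigid, atom, two⟩ cres φ.symm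
  exact ⟨e.symm⟩

end Pool.Agent.Results.MP_cc8255_al.RigidDomains
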